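import Pool.Agent.H317.GR.StmD

/-! Project GR, part D: `S_SUPER` from `S_SU1`, `S_SU2`, `S_SU3`, `S_SU4`. -/

set_option autoImplicit false

namespace Pool.Agent.H21.GR

open Matrix Module Pool.Agent.H317.GR

lemma tvc {n : ℕ} {i j a b : Fin n} (hij : i ≠ j) (hab : a ≠ b) (hja : j ≠ a) (hib : i ≠ b)
    (s t : ℤ) :
    SpecialLinearGroup.transvection hij s * SpecialLinearGroup.transvection hab t =
      SpecialLinearGroup.transvection hab t * SpecialLinearGroup.transvection hij s := by
  apply Subtype.ext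
  have e1 : single i j s * single a b t = (0 : Matrix (Fin n) (Fin n) ℤ) :=
    Matrix.single_mul_single_of_ne s i j a hja t
  have e2 : single a b t * single i j s = (0 : Matrix (Fin n) (Fin n) ℤ) :=
    Matrix.single_mul_single_of_ne t a b i hib.symm s
  change (1 + single i j s) * (1 + single a b t) = (1 + single a b t) * (1 + single i j s)
  rw [add_mul, mul_add, mul_add, e1, add_mul, mul_add, mul_add, e2]
  simp only [one_mul, mul_one, add_zero]
  abel

lemma tvr {n : ℕ} {i j l : Fin n} (hij : i ≠ j) (hjl : j ≠ l) (hil : i ≠ l) (s t : ℤ) :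
    SpecialLinearGroup.transvection hij s * SpecialLinearGroup.transvection hjl t =
      SpecialLinearGroup.transvection hil (s * t) *
        (SpecialLinearGroup.transvection hjl t * SpecialLinearGroup.transvection hij s) := by
  apply Subtype.ext
  have e1 : single i j s * single j l t = (single i l (s * t) : Matrix (Fin n) (Fin n) ℤ) := by
    rw [Matrix.single_mul_single_same]
  have e2 : single j l t * single i j s = (0 : Matrix (Fin n) (Fin n) ℤ) :=
    Matrix.single_mul_single_of_ne t j l i hil.symm s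
  have e3 : single i l (s * t) * single j l t = (0 : Matrix (Fin n) (Fin n) ℤ) :=
    Matrix.single_mul_single_of_ne _ i l j hjl.symm t
  have e4 : single i l (s * t) * single i j s = (0 : Matrix (Fin n) (Fin n) ℤ) :=
    Matrix.single_mul_single_of_ne _ i l i hil.symm s
  change (1 + single i j s) * (1 + single j l t) =
    (1 + single i l (s * t)) * ((1 + single j l t) * (1 + single i j s))
  have h1 : (1 + single i j s) * (1 + single j l t) =
      1 + single i j s + single j l t + single i l (s * t) := by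
    rw [add_mul, mul_add, mul_add, e1]
    simp only [one_mul, mul_one]
    abel
  have h2 : (1 + single j l t) * (1 + single i j s) = 1 + single j l t + single i j s := by
    rw [add_mul, mul_add, mul_add, e2]
    simp only [one_mul, mul_one, add_zero]
    abel
  rw [h1, h2]
  simp only [add_mul, mul_add, e3, e4, one_mul, mul_one, add_zero]
  abel

lemma tvp {n : ℕ} {i j : Fin n} (h : i ≠ j) (t : ℤ) (k : ℕ) :
    SpecialLinearGroup.transvection h t ^ k = SpecialLinearGroup.transvection h ((k : ℤ) * t) := by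
  induction k with
  | zero => rw [pow_zero, Nat.cast_zero, zero_mul, SpecialLinearGroup.transvection_coeff_zero]
  | succ m ih =>
    rw [pow_succ, ih, ← SpecialLinearGroup.transvection_add]
    congr 1
    push_cast
    ring

lemma case1 (h3 : S_SU3) (h4 : S_SU4) (n : ℕ) (hn : 3 ≤ n) (K : Type) [Field K] [CharZero K]
    (τ : SZ n →* GL (Fin n) K) (k : ℕ) (hk : 1 ≤ k)
    (hnil : ∀ (i j : Fin n) (h : i ≠ j),
      IsNilpotent ((τ (SpecialLinearGroup.transvection h (k : ℤ))).val - 1))
    (v : Fin n → Fin n → K) (φ : Fin n → Fin n → Fin n → K)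
    (hv : ∀ (i j : Fin n) (h : i ≠ j), v i ≠ 0 ∧ φ i j ≠ 0 ∧
      (τ (SpecialLinearGroup.transvection h (k : ℤ))).val = 1 + vecMulVec (v i) (φ i j)) :
    ∃ P : GL (Fin n) K, ∀ A, τ A = P * std n K A * P⁻¹ := by
  classical
  let T : Fin n → Fin n → Matrix (Fin n) (Fin n) K := fun i j =>
    if h : i ≠ j then (τ (SpecialLinearGroup.transvection h (k : ℤ))).val else 1
  have hT : ∀ (i j : Fin n) (h : i ≠ j),
      T i j = (τ (SpecialLinearGroup.transvection h (k : ℤ))).val := by
    intro i j h
    exact dif_pos h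
  obtain ⟨P, hP⟩ := h3 n hn K k hk T v φ
    (by
      intro i j h
      rw [hT i j h]
      exact ⟨(hv i j h).1, (hv i j h).2.1, (hv i j h).2.2, hnil i j h⟩)
    (by
      intro i j a b hij hab hja hib
      rw [hT i j hij, hT a b hab, ← Units.val_mul, ← Units.val_mul, ← map_mul, ← map_mul,
        tvc hij hab hja hib])
    (by
      intro i j l hij hjl hil
      rw [hT i j hij, hT j l hjl, hT i l hil, ← Units.val_pow_eq_pow_val, ← Units.val_mul,
        ← Units.val_mul, ← Units.val_mul, ← map_pow, ← map_mul, ← map_mul, ← map_mul, tvp,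
        ← tvr hij hjl hil])
  refine ⟨P, h4 n hn K τ k hk P ?_⟩
  intro i j h
  apply Units.ext
  rw [← hT i j h, hP i j h, Units.val_mul, Units.val_mul]
  congr 2
  change 1 + single i j (k : K) =
    ((SpecialLinearGroup.transvection h (k : ℤ)).val).map (Int.castRingHom K)
  rw [SpecialLinearGroup.transvection_coe]
  rw [Matrix.map_add (Int.castRingHom K) (map_add (Int.castRingHom K)),
    Matrix.map_one (Int.castRingHom K) (map_zero _) (map_one _), Matrix.map_single]
  simp

/-- the contragredient representation -/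
def ctr {n : ℕ} {K : Type} [Field K] (τ : SZ n →* GL (Fin n) K) : SZ n →* GL (Fin n) K :=
  MonoidHom.toHomUnits
    { toFun := fun A => (((τ A)⁻¹).val)ᵀ
      map_one' := by
        rw [map_one, inv_one]
        exact Matrix.transpose_one
      map_mul' := fun A B => by
        rw [map_mul, _root_.mul_inv_rev, Units.val_mul, Matrix.transpose_mul] }

lemma ctr_val {n : ℕ} {K : Type} [Field K] (τ : SZ n →* GL (Fin n) K) (A : SZ n) :
    (ctr τ A).val = (((τ A)⁻¹).val)ᵀ := rfl

/-- a nilpotent matrix of rank one has square zero -/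
lemma dot_zero {n : ℕ} {K : Type} [Field K] (v φ : Fin n → K) (hv : v ≠ 0) (hφ : φ ≠ 0)
    (h : IsNilpotent (vecMulVec v φ)) : φ ⬝ᵥ v = 0 := by
  obtain ⟨m, hm⟩ := h
  have h1 : ∀ m : ℕ, vecMulVec v φ ^ (m + 1) = (φ ⬝ᵥ v) ^ m • vecMulVec v φ := by
    intro m
    induction m with
    | zero => rw [zero_add, pow_one, pow_zero, one_smul]
    | succ r ih =>
      rw [pow_succ, ih, smul_mul_assoc, Matrix.vecMulVec_mul_vecMulVec, Matrix.vecMulVec_smul,
        smul_smul, pow_succ]
  have h2 : (φ ⬝ᵥ v) ^ m • vecMulVec v φ = 0 := by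
    rw [← h1, pow_succ, hm, zero_mul]
  rcases smul_eq_zero.mp h2 with h3 | h3
  · exact (pow_eq_zero_iff (fun h0 => by
      subst h0
      simp at h3)).mp h3
  · exact absurd h3 (Matrix.vecMulVec_ne_zero hv hφ)

theorem super (h1 : S_SU1) (h2 : S_SU2) (h3 : S_SU3) (h4 : S_SU4) : S_SUPER := by
  intro n hn K _ _ τ
  rcases h1 n hn K τ with hf | ⟨k, hk, hnil, hne⟩
  · exact Or.inl hf
  right
  rcases h2 n hn K τ k hk hnil hne with ⟨v, φ, hv⟩ | ⟨v, φ, hv⟩
  · exact Or.inl (case1 h3 h4 n hn K τ k hk hnil v φ hv)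
  right
  have hd : ∀ (i j : Fin n) (h : i ≠ j), φ i ⬝ᵥ v i j = 0 := by
    intro i j h
    obtain ⟨a1, a2, a3⟩ := hv i j h
    have h5 := hnil i j h
    rw [a3, add_sub_cancel_left] at h5
    exact dot_zero _ _ a1 a2 h5
  have hval : ∀ (i j : Fin n) (h : i ≠ j),
      (ctr τ (SpecialLinearGroup.transvection h (k : ℤ))).val =
        1 + vecMulVec ((fun i => -φ i) i) (v i j) := by
    intro i j h
    obtain ⟨a1, a2, a3⟩ := hv i j h
    have h5 : ((τ (SpecialLinearGroup.transvection h (k : ℤ)))⁻¹).val =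
        1 - vecMulVec (v i j) (φ i) := by
      apply Units.inv_eq_of_mul_eq_one_right
      rw [a3, add_mul, mul_sub, mul_sub, Matrix.vecMulVec_mul_vecMulVec, hd i j h, zero_smul,
        Matrix.vecMulVec_zero]
      simp
    rw [ctr_val, h5, Matrix.transpose_sub, Matrix.transpose_one, Matrix.transpose_vecMulVec]
    change _ = 1 + vecMulVec (-φ i) (v i j)
    rw [Matrix.neg_vecMulVec, sub_eq_add_neg]
  obtain ⟨P, hP⟩ := case1 h3 h4 n hn K (ctr τ) k hk
    (by
      intro i j h
      rw [hval i j h, add_sub_cancel_left]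
      refine ⟨2, ?_⟩
      rw [pow_two, Matrix.vecMulVec_mul_vecMulVec]
      have h6 : v i j ⬝ᵥ (fun i => -φ i) i = 0 := by
        change v i j ⬝ᵥ (-φ i) = 0
        rw [dotProduct_neg, dotProduct_comm, hd i j h, neg_zero]
      rw [h6, zero_smul, Matrix.vecMulVec_zero])
    (fun i => -φ i) v
    (by
      intro i j h
      obtain ⟨a1, a2, a3⟩ := hv i j h
      exact ⟨neg_ne_zero.mpr a2, a1, hval i j h⟩)
  have hQ1 : ((P⁻¹).val)ᵀ * (P.val)ᵀ = 1 := by
    rw [← Matrix.transpose_mul, ← Units.val_mul, mul_inv_cancel, Units.val_one,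
      Matrix.transpose_one]
  have hQ2 : (P.val)ᵀ * ((P⁻¹).val)ᵀ = 1 := by
    rw [← Matrix.transpose_mul, ← Units.val_mul, inv_mul_cancel, Units.val_one,
      Matrix.transpose_one]
  refine ⟨⟨((P⁻¹).val)ᵀ, (P.val)ᵀ, hQ1, hQ2⟩, fun A => Units.ext ?_⟩
  have h7 : ((ctr τ A⁻¹).val)ᵀ = ((P * std n K A⁻¹ * P⁻¹).val)ᵀ := by rw [hP A⁻¹]
  rw [ctr_val, Matrix.transpose_transpose, map_inv, inv_inv, Units.val_mul, Units.val_mul,
    Matrix.transpose_mul, Matrix.transpose_mul] at h7
  rw [h7, ← mul_assoc]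
  rfl

end Pool.Agent.H21.GR
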